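import Pool.Agent.TH22.LT.M10
import Pool.Agent.TH272.WH.Sub

/-!
# Almost all reduced labelled oriented trees have aspherical complexes

A labelled oriented tree with vertices `0, …, n-1` and (numbered) edges `0, …, n-2` is *reduced* if
no edge is a loop, no label of an edge is one of its two end points, two different edges with the
same initial vertex or the same terminal vertex have different labels, and every leaf of the tree
occurs as a label. Every labelled oriented tree can be transformed into a reduced one by elementary
moves which do not change the homotopy type of the 2-complex, so these are the essential ones; but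
the reduced labelled oriented trees are an exponentially small part of all labelled oriented trees
(a random labelling misses a positive proportion of the leaves), so the fact that almost all labelled
oriented trees are diagrammatically reducible says nothing about them.
-/

set_option autoImplicit false

namespace Pool.Agent.Results.MP_6de9fc_gt.AlmostAllReduced

open Pool.Agent.H891R2.RL Pool.Agent.TH272.WH Pool.Agent.TH22.LT

/-- killing one generator of a labelled oriented tree gives the trivial group -/
theorem killing {n : ℕ} (L : LOG (Fin n) (Fin (n - 1))) (hL : (gr (L.ini, L.ter)).IsTree)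
    (v : Fin n) :
    ∀ g : PresentedGroup (Set.range (fun e => word (L.rel e)) ∪ {FreeGroup.of v}), g = 1 := by
  set R : Set (FreeGroup (Fin n)) := Set.range (fun e => word (L.rel e)) ∪ {FreeGroup.of v} with hR
  have h0 : (PresentedGroup.of v : PresentedGroup R) = 1 :=
    PresentedGroup.one_of_mem (Or.inr rfl)
  have hrel : ∀ e, (PresentedGroup.of (L.ini e) : PresentedGroup R) * PresentedGroup.of (L.lab e) *
      (PresentedGroup.of (L.ter e))⁻¹ * (PresentedGroup.of (L.lab e))⁻¹ = 1 := by
    intro e
    have h1 : PresentedGroup.mk R (word (L.rel e)) = 1 :=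
      PresentedGroup.one_of_mem (Or.inl ⟨e, rfl⟩)
    rw [word_rel, map_mul, map_mul, map_mul, map_inv, map_inv] at h1
    exact h1
  have hadj : ∀ a b, (gr (L.ini, L.ter)).Adj a b → (PresentedGroup.of a : PresentedGroup R) = 1 →
      (PresentedGroup.of b : PresentedGroup R) = 1 := by
    intro a b hab ha
    unfold gr at hab
    rw [SimpleGraph.fromEdgeSet_adj] at hab
    obtain ⟨⟨e, he⟩, -⟩ := hab
    have hr := hrel e
    simp only at he
    rw [Sym2.eq_iff] at he
    rcases he with ⟨h1, h2⟩ | ⟨h1, h2⟩
    · rw [h1, h2, ha] at hr
      simpa using hr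
    · rw [h1, h2, ha] at hr
      simpa using hr
  have hreach : ∀ a b, (gr (L.ini, L.ter)).Reachable a b →
      (PresentedGroup.of a : PresentedGroup R) = 1 →
      (PresentedGroup.of b : PresentedGroup R) = 1 := by
    intro a b hab
    obtain ⟨w⟩ := hab
    induction w with
    | nil => exact id
    | cons h _ ih => exact fun ha => ih (hadj _ _ h ha)
  have hall : ∀ a, (PresentedGroup.of a : PresentedGroup R) = 1 := fun a =>
    hreach v a (hL.connected.preconnected v a) h0
  have hid : MonoidHom.id (PresentedGroup R) = 1 := by
    apply PresentedGroup.ext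
    intro a
    simp [hall a]
  exact fun g => DFunLike.congr_fun hid g

/-- a subcomplex without reduced spherical diagrams -/
theorem sub_iff {V E : Type} (L : LOG V E) :
    (∃ S : Set E, ¬ DR (fun e : S => L.rel e)) ↔ ¬ DR L.rel := by
  constructor
  · rintro ⟨S, hS⟩ h
    exact hS (dr_sub L.rel (fun e : S => (e : E)) Subtype.val_injective h)
  · intro h
    refine ⟨Set.univ, fun h2 => h ?_⟩
    exact dr_sub (fun e : (Set.univ : Set E) => L.rel e)
      (fun e => ⟨e, trivial⟩) (fun a b hab => Subtype.mk.inj hab) h2

/-- **Almost all reduced labelled oriented trees are diagrammatically reducible, with all their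
subcomplexes.** -/
theorem result (n : ℕ) (hn : 3 ≤ n) :
    (∀ L : LOG (Fin n) (Fin (n - 1)), (gr (L.ini, L.ter)).IsTree → ∀ v : Fin n,
      ∀ g : PresentedGroup (Set.range (fun e => word (L.rel e)) ∪ {FreeGroup.of v}), g = 1) ∧
    ({L : LOG (Fin n) (Fin (n - 1)) | (gr (L.ini, L.ter)).IsTree ∧ RedLOG L ∧
      ∃ S : Set (Fin (n - 1)), ¬ DR (fun e : S => L.rel e)}.ncard : ℝ) ≤
    10 ^ 36 / n *
      ({L : LOG (Fin n) (Fin (n - 1)) | (gr (L.ini, L.ter)).IsTree ∧ RedLOG L}.ncard : ℝ) := by
  refine ⟨fun L hL v => killing L hL v, ?_⟩
  have h := all_reduced n hn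
  have he : {L : LOG (Fin n) (Fin (n - 1)) | (gr (L.ini, L.ter)).IsTree ∧ RedLOG L ∧
      ∃ S : Set (Fin (n - 1)), ¬ DR (fun e : S => L.rel e)} =
      {L : LOG (Fin n) (Fin (n - 1)) | (gr (L.ini, L.ter)).IsTree ∧ (RedLOG L ∧
      ¬ DR L.rel)} := by
    ext L
    simp only [Set.mem_setOf_eq, sub_iff]
  rw [he]
  exact h

end Pool.Agent.Results.MP_6de9fc_gt.AlmostAllReduced
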