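import Pool.Agent.TH625.LOG.Main

/-!
# Labelled oriented trees whose group acts on a totally ordered set with extremal corners

Definitions from `Pool.Agent.TH625.LOG.Core`, `.Tree` and `.Main`:

* `LOG V E`: labelled oriented graph; `L.rel e = x_ini x_lab x_ter⁻¹ x_lab⁻¹`; `L.G` is the group
  with generators `V` and relators `L.rel e`;
* the sides `k : Fin 4` of the 2-cell of the edge `e` are labelled by `L.sv e k` (`ini`, `lab`,
  `lab`, `ter`); the initial points of the sides, with base point `1`, are `L.sg e k`
  (`1`, `x_ini`, `1`, `x_lab`); the side `k` of the translate `(e, h)` is the edge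
  `(L.sv e k, h * L.sg e k)` of the universal covering;
* `L.bdry`: the boundary operator from the 2-chains to the 1-chains of the universal covering;
* `L.Folds`: every closed diagram (finitely many squares glued in pairs of sides, mapped to the
  universal covering) has two different squares that are glued along a side and are mirror images;
* `L.FreeSides`: every nonempty finite set of 2-cells of the universal covering has a 2-cell with a
  free side;
* `L.OrderedTest Ω ρ`: `ρ` is an action of `L.G` on `Ω` by order automorphisms, and every edge `e`
  has a point `w e` and a side `c e` with `(sg e (c e))⁻¹ (w e) < (sg e' k')⁻¹ (w e')` for all the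
  other sides `k'` of 2-cells `e'` carrying the same generator as the side `c e` of `e`;
* `L.Conn`: connected; `L.ContractibleWith v₀`: `L ∪ f` with `∂f = x_{v₀}` is contractible
  (trivial fundamental group, injective integral boundary operator).
-/

set_option autoImplicit false

namespace Pool.Agent.Results.MP_6de9fc_gt.OrderedActions

open Pool.Agent.TH625.LOG

variable {V E : Type}

/-- The labelled oriented graph with the edges in `S` only: the subcomplex of the complex of `L` that
consists of all 1-cells and of the 2-cells in `S`. -/
def sub (L : LOG V E) (S : Set E) : LOG V S :=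
  ⟨fun e => L.ini e, fun e => L.ter e, fun e => L.lab e⟩

theorem incl_aux (L : LOG V E) (S : Set E) :
    ∀ r ∈ Set.range (sub L S).rel, FreeGroup.lift L.gen r = 1 := by
  rintro _ ⟨e, rfl⟩
  have h1 : FreeGroup.lift L.gen = PresentedGroup.mk (Set.range L.rel) := by
    ext v
    rw [FreeGroup.lift_apply_of]
    rfl
  rw [h1]
  exact PresentedGroup.one_of_mem (rels := Set.range L.rel) (x := L.rel e.1) ⟨e.1, rfl⟩

/-- The homomorphism of fundamental groups induced by the inclusion of the subcomplex. -/
noncomputable def incl (L : LOG V E) (S : Set E) : (sub L S).G →* L.G :=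
  PresentedGroup.toGroup (incl_aux L S)

theorem incl_gen (L : LOG V E) (S : Set E) (v : V) : incl L S ((sub L S).gen v) = L.gen v :=
  PresentedGroup.toGroup.of (incl_aux L S)

theorem incl_sg (L : LOG V E) (S : Set E) (e : S) (k : Fin 4) :
    incl L S ((sub L S).sg e k) = L.sg e.1 k := by
  fin_cases k
  · simp [LOG.sg]
  · simpa [LOG.sg, sub] using incl_gen L S (L.ini e.1)
  · simp [LOG.sg]
  · simpa [LOG.sg, sub] using incl_gen L S (L.lab e.1)

theorem sub_test (L : LOG V E) {Ω : Type} [LinearOrder Ω] (ρ : L.G →* (Ω ≃o Ω))
    (h : L.OrderedTest Ω ρ) (S : Set E) : (sub L S).OrderedTest Ω (ρ.comp (incl L S)) := by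
  obtain ⟨w, c, hlt⟩ := h
  refine ⟨fun e => w e.1, fun e => c e.1, fun e e' k' h1 h2 => ?_⟩
  simp only [MonoidHom.comp_apply]
  rw [incl_sg, incl_sg]
  refine hlt e.1 e'.1 k' h1 ?_
  rcases h2 with h2 | h2
  · exact Or.inl fun h3 => h2 (Subtype.ext h3)
  · exact Or.inr h2

/-- Let `L` be the 2-complex of a labelled oriented graph whose group acts by order automorphisms on
a totally ordered set such that every 2-cell has an extremal corner.  Then every subcomplex of `L`
that contains the 1-skeleton (given by a set `S` of edges of the graph, `S = univ` for `L` itself)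
has free sides in its universal covering, is diagrammatically reducible, and the boundary operator
`C₂ → C₁` of its universal covering is injective, i.e. it is aspherical.  If the graph is a tree,
then `L` is a subcomplex of the contractible complex `L ∪ f`. -/
theorem result (V E : Type) [Fintype V] [DecidableEq V] [Fintype E] (L : LOG V E)
    (Ω : Type) [LinearOrder Ω] (ρ : L.G →* (Ω ≃o Ω)) (h : L.OrderedTest Ω ρ) :
    (∀ S : Set E, (sub L S).FreeSides ∧ (sub L S).Folds ∧
      ∀ c : (S × (sub L S).G) →₀ ℤ, (sub L S).bdry c = 0 → c = 0) ∧
      (L.Conn → Fintype.card V = Fintype.card E + 1 → ∀ v₀ : V, L.ContractibleWith v₀) := by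
  refine ⟨fun S => ?_, contractibleWith L⟩
  have hS := freeSides_of_ordered (sub L S) _ (sub_test L ρ h S)
  exact ⟨hS, folds _ hS, bdry_inj _ hS⟩

end Pool.Agent.Results.MP_6de9fc_gt.OrderedActions
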